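import Pool.Agent.Lib_helper61.APX.Away

set_option autoImplicit false

/-!
# MP_51b51a_co: nowhere-zero 5-flows of all bridgeless apex graphs

Grötzsch's conjecture (Q1) is equivalent to the statement that every bridgeless graph `G` with a
vertex `v` such that `G - v` is planar has a nowhere-zero 4-flow.  Here it is shown, without the
four colour theorem, that all these graphs have a nowhere-zero 5-flow.  So every counterexample to
Q1 yields an apex graph with flow number exactly five.  More generally, `G - v` may be embedded in
the projective plane, the torus or the Klein bottle.

Definitions (`Lib_helper61/APX/Notions.lean`): a multigraph is a pair of maps `a b : E → V`.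
`IsFlow`: flows.  `Bridgeless`: no cut has exactly one edge.  `Away a b v`: the edges of `G - v`.
`HasDual γ`: there is a dual graph of defect at most `γ`; for `γ = 0` this is Whitney's criterion
for planarity, and graphs in a surface of Euler genus `γ` have a dual of defect at most `γ`.

Proof.  Consider a counterexample with `|V| + |E|` as small as possible.  It is 2-edge-connected,
and contraction and deletion of edges preserve the class (`Minor`, `Emb`).  There are no cuts with
two edges; no nontrivial cuts with three edges (`Three`; the number of nowhere-zero
`Z_5`-functions with given boundary depends only on the zero sums of the boundary: `Switch`); and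
no circuits of length at most six (`Circ`: contract all edges of the circuit but one, two, or
three, which are deleted; extend the flow, and add a multiple of the flow around the circuit).  So
all degrees are at least three, and the balls of radius two around the neighbours of `v` in
`G - v` are disjoint; hence `|G - v| ≥ 7 deg v` (`Walk`, `Ball`).  On the other hand, all faces of
`G - v` have at least seven edges, and Euler's formula gives
`|G - v| ≤ 5 deg v - 28 + 14 γ ≤ 5 deg v` (`Euler`, `Main`).  Integer flows are obtained from
`Z_5`-flows as in Tutte's theorem (`Int`).
-/

namespace Pool.Agent.Results.MP_51b51a_co.FiveFlow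

open Classical Pool.Agent.Lib_helper61.APX

/-- Let `G` be a finite bridgeless multigraph and `v` a vertex such that `G - v` has a dual graph
of defect at most `γ ≤ 2` (`γ = 0`: `G - v` is planar).  Then `G` has a nowhere-zero 5-flow. -/
theorem result (γ : ℕ) (hγ : γ ≤ 2) (V E : Type) [Fintype V] [Fintype E] (a b : E → V) (v : V)
    (hbridge : Bridgeless a b)
    (hdual : HasDual γ (fun e : Away a b v => a e.1) (fun e : Away a b v => b e.1)) :
    ∃ f : E → ℤ, IsFlow a b f ∧ ∀ e, 1 ≤ |f e| ∧ |f e| ≤ 4 :=
  five_flow hγ a b v hbridge (dual_of_away a b v hdual)

end Pool.Agent.Results.MP_51b51a_co.FiveFlow
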